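import Pool.Agent.Helper99.LN.Defs
import Pool.Agent.Helper37.L.TR

/-!
# Project LN, block TR: transfer of sections of the twists `y ^ n = c h`
-/

set_option autoImplicit false
set_option linter.unusedSectionVars false

namespace Pool.Agent.LN.TR

open VC IntermediateField NumberField Pool.Agent.SC Pool.Agent.Helper91.Sect Pool.Agent.L.TR
open Pool.Agent.L (L0 MM cst)

noncomputable section

/-- the action on `U` of a section of (a curve over) the twist `y ^ n = c h`, for one `n`-th root
of `c` (`k` without roots of unity) -/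
structure Act1 {k K0 E U : Type} [Field k] [Field K0] [Field E] [Field U] [Algebra k K0]
    [Algebra k E] [Algebra E U] [Algebra K0 U] (n : ℕ) (r : U) (c : k)
    (Φ : (E ≃ₐ[k] E) →* (U ≃+* U)) : Prop where
  const : ∀ g (e : E), Φ g (algebraMap E U e) = algebraMap E U (g e)
  fixK : ∀ g (x : K0), Φ g (algebraMap K0 U x) = algebraMap K0 U x
  tw : ∃ d : E, d ^ n = algebraMap k E c ∧
    ∀ g, Φ g r * algebraMap E U (g d) = algebraMap E U d * r
  cont : ∀ z : U, ∃ L : IntermediateField k E, FiniteDimensional k L ∧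
    ∀ g : E ≃ₐ[k] E, (∀ x ∈ L, g x = x) → Φ g z = z

section act

variable {k K0 Kc E U : Type} [Field k] [Field K0] [Field Kc] [Algebra k K0] [Algebra k Kc]
  [Algebra K0 Kc] [Field E] [Field U] [Algebra k E] [Algebra E U] [Algebra K0 U] [Algebra k U]

theorem Phi_const (s : GaloisSection k Kc) (ρ : Kur k Kc ≃+* U) (e : kbar k Kc ≃ₐ[k] E)
    (h1 : ∀ z : kbar k Kc, ρ ⟨z, kbar_mem_Kur z⟩ = algebraMap E U (e z)) (g : E ≃ₐ[k] E) (a : E) :
    Phi s ρ e g (algebraMap E U a) = algebraMap E U (g a) := by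
  have h3 := h1 (e.symm a)
  rw [e.apply_symm_apply] at h3
  rw [← h3, Phi_apply]
  have h4 := s.isSection ((e.trans g).trans e.symm) (e.symm a) ⟨e.symm a, kbar_mem_Kur _⟩ rfl
  have h5 : s.toHom ((e.trans g).trans e.symm) ⟨e.symm a, kbar_mem_Kur _⟩ =
      ⟨e.symm (g a), kbar_mem_Kur _⟩ := by
    apply Subtype.ext
    rw [h4]
    change ((e.symm (g (e (e.symm a))) : kbar k Kc) : AlgebraicClosure Kc) = _
    rw [e.apply_symm_apply]
  rw [h5, h1, e.apply_symm_apply]

theorem act1_Phi {n : ℕ} (s : GaloisSection k Kc) (ρ : Kur k Kc ≃+* U) (e : kbar k Kc ≃ₐ[k] E)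
    (h1 : ∀ z : kbar k Kc, ρ ⟨z, kbar_mem_Kur z⟩ = algebraMap E U (e z))
    (h2 : ∀ x : K0, ρ (algebraMap Kc (Kur k Kc) (algebraMap K0 Kc x)) = algebraMap K0 U x)
    (y : Kc) (c : k) (r : U) (d : E) (hd : d ^ n = algebraMap k E c)
    (hy : algebraMap E U d * r = ρ (algebraMap Kc (Kur k Kc) y)) :
    Act1 (K0 := K0) n r c (Phi s ρ e) where
  const := Phi_const s ρ e h1
  fixK g x := by
    rw [← h2, Phi_apply, AlgEquiv.commutes]
  tw := by
    refine ⟨d, hd, fun g => ?_⟩
    have h3 : Phi s ρ e g (algebraMap E U d * r) = algebraMap E U d * r := by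
      rw [hy, Phi_apply, AlgEquiv.commutes]
    rw [map_mul, Phi_const s ρ e h1] at h3
    rw [mul_comm, h3]
  cont z := by
    obtain ⟨L, hL, hLs⟩ := exists_finite_level s (ρ.symm z)
    refine ⟨L.map (e : kbar k Kc →ₐ[k] E), ?_, fun g hg => ?_⟩
    · exact Module.Finite.equiv (L.intermediateFieldMap e).toLinearEquiv
    · have h3 : (e.trans g).trans e.symm ∈ L.fixingSubgroup := by
        rw [IntermediateField.mem_fixingSubgroup_iff]
        intro x hx
        change e.symm (g (e x)) = x
        rw [hg (e x) ⟨x, hx, rfl⟩, e.symm_apply_apply]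
      have h4 := Phi_apply s ρ e g (ρ.symm z)
      rw [hLs _ h3, ρ.apply_symm_apply] at h4
      exact h4

end act

section fixed

variable {k K0 K1 : Type} [Field k] [CharZero k] [Field K0] [Field K1] [Algebra k K0]
  [Algebra k K1] [Algebra K0 K1] [IsScalarTower k K0 K1]

theorem mem_KK_of_pow {n : ℕ} (hn : 0 < n) {z : AlgebraicClosure K1} {a : AlgebraicClosure K1}
    (ha : a ∈ KK k K1) (h : z ^ n = a ^ n) : z ∈ KK k K1 := by
  by_cases ha0 : a = 0
  · rw [ha0, zero_pow hn.ne'] at h
    rw [pow_eq_zero_iff hn.ne' |>.1 h]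
    exact zero_mem _
  have h1 : (z / a) ^ n = 1 := by
    rw [div_pow, h, div_self (pow_ne_zero _ ha0)]
  have h2 : z / a ∈ kbar k K1 := by
    rw [mem_algebraicClosure_iff]
    refine IsAlgebraic.of_pow hn ?_
    rw [h1]
    exact isAlgebraic_one
  have h3 : z = (z / a) * a := by rw [div_mul_cancel₀ _ ha0]
  rw [h3]
  exact mul_mem ((KK k K1).algebraMap_mem (⟨z / a, h2⟩ : kbar k K1)) ha

/-- `UU` is normal over `K0` if `K1 = K0(r)`, `r ^ n ∈ K0`. -/
theorem normal_UU {n : ℕ} (hn : 0 < n) {h : K0} {r : K1} (hr : r ^ n = algebraMap K0 K1 h)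
    (hK1 : IntermediateField.adjoin K0 {r} = ⊤) [Algebra.IsAlgebraic K0 K1] :
    @Normal K0 (UU k K1) _ _ (jU k K0 K1).toAlgebra := by
  let i0 : Algebra K0 (UU k K1) := (jU k K0 K1).toAlgebra
  have halg : Algebra.IsAlgebraic K0 (AlgebraicClosure K1) :=
    Algebra.IsAlgebraic.trans K0 K1 (AlgebraicClosure K1)
  have hac : IsAlgClosure K0 (AlgebraicClosure K1) := ⟨inferInstance, halg⟩
  have hnor : Normal K0 (AlgebraicClosure K1) := IsAlgClosure.normal K0 (AlgebraicClosure K1)
  have h1 : Normal K0 ((Kur k K1).restrictScalars K0) := by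
    rw [normal_iff_forall_map_le']
    rintro σ _ ⟨z, hz, rfl⟩
    change σ z ∈ Kur k K1
    have hσ0 : ∀ x : K0, σ (algebraMap K1 (AlgebraicClosure K1) (algebraMap K0 K1 x)) =
        algebraMap K1 (AlgebraicClosure K1) (algebraMap K0 K1 x) := by
      intro x
      rw [← IsScalarTower.algebraMap_apply K0 K1 (AlgebraicClosure K1)]
      exact σ.commutes x
    have hσr : σ (algebraMap K1 (AlgebraicClosure K1) r) ∈ KK k K1 := by
      refine mem_KK_of_pow hn (algebraMap_mem_KK r) ?_
      rw [← map_pow, ← map_pow, hr, hσ0]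
    have h3 : ∀ x : K1, σ (algebraMap K1 (AlgebraicClosure K1) x) ∈ KK k K1 :=
      map_mem_KK hK1 (σ : AlgebraicClosure K1 →+* AlgebraicClosure K1) hσ0 hσr
    refine kur_of_iso (σ.symm : AlgebraicClosure K1 ≃+* AlgebraicClosure K1) ?_ h3 hz
    intro c
    have h4 : algebraMap k (AlgebraicClosure K1) c =
        algebraMap K0 (AlgebraicClosure K1) (algebraMap k K0 c) := by
      rw [IsScalarTower.algebraMap_apply K0 K1 (AlgebraicClosure K1),
        ← IsScalarTower.algebraMap_apply k K0 K1,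
        ← IsScalarTower.algebraMap_apply k K1 (AlgebraicClosure K1)]
    rw [h4]
    exact σ.symm.commutes _
  let e : ((Kur k K1).restrictScalars K0) ≃ₐ[K0] (UU k K1) :=
    { toFun := fun z => ⟨z, mem_UU.2 z.2⟩
      invFun := fun z => ⟨z, mem_UU.1 z.2⟩
      left_inv := fun z => rfl
      right_inv := fun z => rfl
      map_mul' := fun _ _ => rfl
      map_add' := fun _ _ => rfl
      commutes' := fun x => Subtype.ext
        (IsScalarTower.algebraMap_apply K0 K1 (AlgebraicClosure K1) x) }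
  exact Normal.of_algEquiv e

/-- The geometric situation over `kbar`. -/
theorem geo {n : ℕ} (hn : 0 < n) (h : K0) (r : K1) (hg : GoodCurve k n h)
    (hr : r ^ n = algebraMap K0 K1 h)
    (hK1 : IntermediateField.adjoin K0 {r} = ⊤) [FiniteDimensional K0 K1] :
    letI : Algebra K0 (UU k K1) := (jU k K0 K1).toAlgebra
    Geo k K0 (kbar k K1) (UU k K1) n h (rU k r) := by
  let i0 : Algebra K0 (UU k K1) := (jU k K0 K1).toAlgebra
  have s0 : IsScalarTower k K0 (UU k K1) := IsScalarTower.of_algebraMap_eq fun x => by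
    apply Subtype.ext
    change algebraMap k (AlgebraicClosure K1) x =
      algebraMap K1 (AlgebraicClosure K1) (algebraMap K0 K1 (algebraMap k K0 x))
    rw [← IsScalarTower.algebraMap_apply k K0 K1,
      ← IsScalarTower.algebraMap_apply k K1 (AlgebraicClosure K1)]
  have hK : IsFunctionField k K1 := isFunctionField_of_finite (M := K0) hg.ff
  have halg : Algebra.IsAlgebraic k (kbar k K1) := algebraicClosure.isAlgebraic k _
  have hacl : IsAlgClosed (kbar k K1) :=
    (algebraicClosure.isAlgClosure k (AlgebraicClosure K1)).isAlgClosed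
  -- the comparison with the algebraic closure of `K0`
  have halg0 : Algebra.IsAlgebraic K0 (AlgebraicClosure K1) :=
    Algebra.IsAlgebraic.trans K0 K1 (AlgebraicClosure K1)
  have hac : IsAlgClosure K0 (AlgebraicClosure K1) := ⟨inferInstance, halg0⟩
  let θ : AlgebraicClosure K1 ≃ₐ[K0] AlgebraicClosure K0 :=
    IsAlgClosure.equiv K0 (AlgebraicClosure K1) (AlgebraicClosure K0)
  have hθ : ∀ x : K0, θ (algebraMap K1 (AlgebraicClosure K1) (algebraMap K0 K1 x)) =
      algebraMap K0 (AlgebraicClosure K0) x := by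
    intro x
    rw [← IsScalarTower.algebraMap_apply K0 K1 (AlgebraicClosure K1)]
    exact θ.commutes x
  have hcst : ∀ z : AlgebraicClosure K1, θ z ∈ cst k K0 ↔ z ∈ kbar k K1 :=
    mem_cst_iff (θ : AlgebraicClosure K1 ≃+* AlgebraicClosure K0) hθ
  have hrθ : (θ (algebraMap K1 (AlgebraicClosure K1) r)) ^ n =
      algebraMap K0 (AlgebraicClosure K0) h := by
    rw [← map_pow, ← map_pow, hr, hθ]
  let fU : UU k K1 →+* AlgebraicClosure K0 :=
    (θ : AlgebraicClosure K1 →+* AlgebraicClosure K0).comp (algebraMap (UU k K1) _)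
  have hfU : ∀ z : UU k K1, fU z = θ z := fun _ => rfl
  refine ⟨halg, hacl, ff_L0 hg.ff, ?_, ?_, ?_, ?_, normal_UU hn hr hK1⟩
  · apply Subtype.ext
    change (algebraMap K1 (AlgebraicClosure K1) r) ^ n =
      algebraMap K1 (AlgebraicClosure K1) (algebraMap K0 K1 h)
    rw [← map_pow, hr]
  · intro i hi0 hin hmem
    refine hg.irr _ hrθ i hi0 hin ?_
    have h1 : (L0 (kbar k K1) K0 (U := UU k K1)).toSubfield ≤
        (Subfield.closure (cst k K0 ∪ Set.range (algebraMap K0 (AlgebraicClosure K0)))).comap fU := by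
      rw [L0, IntermediateField.adjoin_toSubfield, Subfield.closure_le]
      rintro z (⟨c, rfl⟩ | ⟨x, rfl⟩)
      · refine Subfield.subset_closure (Or.inl ?_)
        exact (hcst _).2 c.2
      · refine Subfield.subset_closure (Or.inr ⟨x, ?_⟩)
        exact (hθ x).symm
    have h2 : fU ((rU k r) ^ i) = (θ (algebraMap K1 (AlgebraicClosure K1) r)) ^ i := by
      rw [map_pow]
      rfl
    rw [← h2]
    exact h1 hmem
  · rw [MM_eq r hK hK1]
    exact isCover_Kur0 (isotrivial_self hK)
  · intro y hy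
    refine hg.nonrat _ hrθ (fU (y : UU k K1)) ?_
    have hM : ∀ z : UU k K1, z ∈ MM (kbar k K1) K0 (rU k r) →
        fU z ∈ Subfield.closure (cst k K0 ∪ {fU (y : UU k K1)}) := by
      intro z hz
      have h1 : (⟨z, hz⟩ : MM (kbar k K1) K0 (rU k r)) ∈
          IntermediateField.adjoin (kbar k K1) {y} := by
        rw [hy]
        exact IntermediateField.mem_top
      have h2 : (IntermediateField.adjoin (kbar k K1) {y}).toSubfield ≤
          (Subfield.closure (cst k K0 ∪ {fU (y : UU k K1)})).comap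
            (fU.comp (algebraMap (MM (kbar k K1) K0 (rU k r)) (UU k K1))) := by
        rw [IntermediateField.adjoin_toSubfield, Subfield.closure_le]
        rintro z (⟨c, rfl⟩ | hz)
        · refine Subfield.subset_closure (Or.inl ?_)
          exact (hcst _).2 c.2
        · rw [Set.mem_singleton_iff] at hz
          rw [hz]
          exact Subfield.subset_closure (Or.inr rfl)
      exact h2 h1
    apply le_antisymm
    · rw [Subfield.closure_le]
      rintro z ((hz | ⟨x, rfl⟩) | hz)
      · exact Subfield.subset_closure (Or.inl hz)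
      · have h1 := hM (algebraMap K0 (UU k K1) x)
          (IntermediateField.subset_adjoin _ _ (Or.inl ⟨x, rfl⟩))
        have h2 : fU (algebraMap K0 (UU k K1) x) = algebraMap K0 (AlgebraicClosure K0) x := hθ x
        rwa [h2] at h1
      · rw [Set.mem_singleton_iff] at hz
        rw [hz]
        exact hM (rU k r) (IntermediateField.subset_adjoin _ _ (Or.inr rfl))
    · rw [Subfield.closure_le]
      rintro z (hz | hz)
      · exact Subfield.subset_closure (Or.inl (Or.inl hz))
      · rw [Set.mem_singleton_iff] at hz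
        rw [hz]
        have h1 : (MM (kbar k K1) K0 (rU k r)).toSubfield ≤
            (Subfield.closure (cst k K0 ∪ Set.range (algebraMap K0 (AlgebraicClosure K0)) ∪
              {θ (algebraMap K1 (AlgebraicClosure K1) r)})).comap fU := by
          rw [MM, IntermediateField.adjoin_toSubfield, Subfield.closure_le]
          rintro z (⟨c, rfl⟩ | ⟨x, rfl⟩ | hz)
          · refine Subfield.subset_closure (Or.inl (Or.inl ?_))
            exact (hcst _).2 c.2
          · refine Subfield.subset_closure (Or.inl (Or.inr ⟨x, ?_⟩))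
            exact (hθ x).symm
          · rw [Set.mem_singleton_iff] at hz
            rw [hz]
            exact Subfield.subset_closure (Or.inr rfl)
        exact h1 y.2

/-- transfer of a section of the twist -/
theorem exists_act {Kc : Type} [Field Kc] [Algebra k Kc] [Algebra K0 Kc] [IsScalarTower k K0 Kc]
    {n : ℕ} (hn : 0 < n) {h : K0} (hh : h ≠ 0) {r : K1} (hr : r ^ n = algebraMap K0 K1 h)
    (hK1 : IntermediateField.adjoin K0 {r} = ⊤) [FiniteDimensional K0 K1]
    [FiniteDimensional K0 Kc] {c : k} (hc : c ≠ 0) {y : Kc}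
    (hy : y ^ n = algebraMap k Kc c * algebraMap K0 Kc h)
    (hKc : IntermediateField.adjoin K0 {y} = ⊤) (s : GaloisSection k Kc) :
    letI : Algebra K0 (UU k K1) := (jU k K0 K1).toAlgebra
    ∃ Φ : ((kbar k K1) ≃ₐ[k] (kbar k K1)) →* (UU k K1 ≃+* UU k K1),
      Act1 (K0 := K0) n (rU k r) c Φ := by
  let i0 : Algebra K0 (UU k K1) := (jU k K0 K1).toAlgebra
  have halg0 : Algebra.IsAlgebraic K0 (AlgebraicClosure K1) :=
    Algebra.IsAlgebraic.trans K0 K1 (AlgebraicClosure K1)
  have hac0 : IsAlgClosure K0 (AlgebraicClosure K1) := ⟨inferInstance, halg0⟩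
  have halgc : Algebra.IsAlgebraic K0 (AlgebraicClosure Kc) :=
    Algebra.IsAlgebraic.trans K0 Kc (AlgebraicClosure Kc)
  have hacc : IsAlgClosure K0 (AlgebraicClosure Kc) := ⟨inferInstance, halgc⟩
  let ψ : AlgebraicClosure Kc ≃ₐ[K0] AlgebraicClosure K1 :=
    IsAlgClosure.equiv K0 (AlgebraicClosure Kc) (AlgebraicClosure K1)
  have hψ : ∀ x : K0, ψ (algebraMap Kc (AlgebraicClosure Kc) (algebraMap K0 Kc x)) =
      algebraMap K1 (AlgebraicClosure K1) (algebraMap K0 K1 x) := by
    intro x
    rw [← IsScalarTower.algebraMap_apply K0 Kc (AlgebraicClosure Kc),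
      ← IsScalarTower.algebraMap_apply K0 K1 (AlgebraicClosure K1)]
    exact ψ.commutes x
  have hψ' : ∀ x : K0, ψ.symm (algebraMap K1 (AlgebraicClosure K1) (algebraMap K0 K1 x)) =
      algebraMap Kc (AlgebraicClosure Kc) (algebraMap K0 Kc x) := by
    intro x
    rw [← hψ, AlgEquiv.symm_apply_apply]
  have hk : ∀ c : k, ψ (algebraMap k (AlgebraicClosure Kc) c) =
      algebraMap k (AlgebraicClosure K1) c := by
    intro c
    rw [IsScalarTower.algebraMap_apply k Kc (AlgebraicClosure Kc),
      IsScalarTower.algebraMap_apply k K0 Kc, hψ, ← IsScalarTower.algebraMap_apply k K0 K1,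
      ← IsScalarTower.algebraMap_apply]
  have hk' : ∀ c : k, ψ.symm (algebraMap k (AlgebraicClosure K1) c) =
      algebraMap k (AlgebraicClosure Kc) c := by
    intro c
    rw [← hk, AlgEquiv.symm_apply_apply]
  let ψk : AlgebraicClosure Kc ≃ₐ[k] AlgebraicClosure K1 :=
    AlgEquiv.ofRingEquiv (f := (ψ : AlgebraicClosure Kc ≃+* AlgebraicClosure K1)) hk
  have hbar : ∀ z : AlgebraicClosure Kc, z ∈ kbar k Kc → ψ z ∈ kbar k K1 := by
    intro z hz
    rw [mem_algebraicClosure_iff] at hz ⊢
    exact hz.algHom (ψk : AlgebraicClosure Kc →ₐ[k] AlgebraicClosure K1)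
  have hbar' : ∀ z : AlgebraicClosure K1, z ∈ kbar k K1 → ψ.symm z ∈ kbar k Kc := by
    intro z hz
    rw [mem_algebraicClosure_iff] at hz ⊢
    exact hz.algHom (ψk.symm : AlgebraicClosure K1 →ₐ[k] AlgebraicClosure Kc)
  -- the root of `c`
  have hr0 : algebraMap K1 (AlgebraicClosure K1) r ≠ 0 := by
    intro h0
    have h1 : r = 0 := (map_eq_zero (algebraMap K1 (AlgebraicClosure K1))).1 h0
    rw [h1, zero_pow hn.ne'] at hr
    exact hh ((map_eq_zero (algebraMap K0 K1)).1 hr.symm)
  have hpow : (ψ (algebraMap Kc (AlgebraicClosure Kc) y)) ^ n =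
      algebraMap k (AlgebraicClosure K1) c * (algebraMap K1 (AlgebraicClosure K1) r) ^ n := by
    rw [← map_pow, ← map_pow, hy, map_mul, map_mul, hψ,
      ← IsScalarTower.algebraMap_apply k Kc (AlgebraicClosure Kc), hk, ← map_pow, hr]
  obtain ⟨d, hd⟩ : ∃ d : AlgebraicClosure K1,
      d * algebraMap K1 (AlgebraicClosure K1) r = ψ (algebraMap Kc (AlgebraicClosure Kc) y) :=
    ⟨_, div_mul_cancel₀ _ hr0⟩
  have hdn : d ^ n = algebraMap k (AlgebraicClosure K1) c := by
    rw [← hd, mul_pow] at hpow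
    exact mul_right_cancel₀ (pow_ne_zero _ hr0) hpow
  have hd0 : d ≠ 0 := by
    intro h0
    rw [h0, zero_pow hn.ne'] at hdn
    exact hc ((map_eq_zero (algebraMap k (AlgebraicClosure K1))).1 hdn.symm)
  have hdk : d ∈ kbar k K1 := by
    rw [mem_algebraicClosure_iff]
    refine IsAlgebraic.of_pow hn ?_
    rw [hdn]
    exact isAlgebraic_algebraMap c
  have hdM : d ∈ KK k K1 := (KK k K1).algebraMap_mem (⟨d, hdk⟩ : kbar k K1)
  have hrM : algebraMap K1 (AlgebraicClosure K1) r ∈ KK k K1 := algebraMap_mem_KK _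
  have hψy : ψ (algebraMap Kc (AlgebraicClosure Kc) y) ∈ KK k K1 := by
    rw [← hd]
    exact mul_mem hdM hrM
  have hψr : ψ.symm (algebraMap K1 (AlgebraicClosure K1) r) ∈ KK k Kc := by
    have h2 : ψ.symm d ∈ KK k Kc :=
      (KK k Kc).algebraMap_mem (⟨ψ.symm d, hbar' d hdk⟩ : kbar k Kc)
    have h3 : algebraMap Kc (AlgebraicClosure Kc) y ∈ KK k Kc := algebraMap_mem_KK _
    have h4 : ψ.symm (algebraMap K1 (AlgebraicClosure K1) r) =
        (ψ.symm d)⁻¹ * (ψ.symm (d * algebraMap K1 (AlgebraicClosure K1) r)) := by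
      rw [map_mul, ← mul_assoc, inv_mul_cancel₀ ((map_ne_zero_iff ψ.symm ψ.symm.injective).2 hd0),
        one_mul]
    rw [h4, hd, AlgEquiv.symm_apply_apply]
    exact mul_mem (inv_mem h2) h3
  have hKc' : ∀ x : Kc, ψ (algebraMap Kc (AlgebraicClosure Kc) x) ∈ KK k K1 :=
    map_mem_KK hKc (ψ : AlgebraicClosure Kc →+* AlgebraicClosure K1) hψ hψy
  have hK1' : ∀ x : K1, ψ.symm (algebraMap K1 (AlgebraicClosure K1) x) ∈ KK k Kc :=
    map_mem_KK hK1 (ψ.symm : AlgebraicClosure K1 →+* AlgebraicClosure Kc) hψ' hψr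
  have hur : ∀ z : AlgebraicClosure Kc, z ∈ Kur k Kc → ψ z ∈ Kur k K1 := fun z hz =>
    kur_of_iso (ψ.symm : AlgebraicClosure K1 ≃+* AlgebraicClosure Kc) hk' hKc' hz
  have hur' : ∀ z : AlgebraicClosure K1, z ∈ Kur k K1 → ψ.symm z ∈ Kur k Kc := fun z hz =>
    kur_of_iso (ψ : AlgebraicClosure Kc ≃+* AlgebraicClosure K1) hk hK1' hz
  let ρ : Kur k Kc ≃+* UU k K1 :=
    { toFun := fun z => ⟨ψ z, mem_UU.2 (hur z z.2)⟩
      invFun := fun z => ⟨ψ.symm z, hur' z (mem_UU.1 z.2)⟩
      left_inv := fun z => Subtype.ext (ψ.symm_apply_apply z)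
      right_inv := fun z => Subtype.ext (ψ.apply_symm_apply z)
      map_mul' := fun a b => Subtype.ext (map_mul ψ (a : AlgebraicClosure Kc) b)
      map_add' := fun a b => Subtype.ext (map_add ψ (a : AlgebraicClosure Kc) b) }
  let e : kbar k Kc ≃ₐ[k] kbar k K1 :=
    { toFun := fun z => ⟨ψ z, hbar z z.2⟩
      invFun := fun z => ⟨ψ.symm z, hbar' z z.2⟩
      left_inv := fun z => Subtype.ext (ψ.symm_apply_apply z)
      right_inv := fun z => Subtype.ext (ψ.apply_symm_apply z)
      map_mul' := fun a b => Subtype.ext (map_mul ψ (a : AlgebraicClosure Kc) b)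
      map_add' := fun a b => Subtype.ext (map_add ψ (a : AlgebraicClosure Kc) b)
      commutes' := fun c => Subtype.ext (hk c) }
  exact ⟨Phi s ρ e, act1_Phi s ρ e (fun z => rfl) (fun x => Subtype.ext (hψ x)) y c _
    (⟨d, hdk⟩ : kbar k K1) (Subtype.ext hdn) (Subtype.ext hd)⟩

end fixed

/-- The fixed situation `U`, and the action of all sections on it (`k` without roots of unity). -/
theorem tr1 (k K0 : Type) [Field k] [CharZero k] [Field K0] [Algebra k K0] (n : ℕ) (h : K0)
    (hn : 2 ≤ n) (hg : GoodCurve k n h) :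
    ∃ (E U : Type) (_ : Field E) (_ : Field U) (_ : Algebra k E) (_ : Algebra E U)
      (_ : Algebra K0 U) (_ : Algebra k U) (_ : IsScalarTower k E U) (_ : IsScalarTower k K0 U)
      (r : U), Geo k K0 E U n h r ∧ ∀ c : k, c ≠ 0 → HasSec n h c →
        ∃ Φ : (E ≃ₐ[k] E) →* (U ≃+* U), Act1 (K0 := K0) n r c Φ := by
  have hn0 : 0 < n := by omega
  obtain ⟨r₀, hr₀⟩ := IsAlgClosed.exists_pow_nat_eq (algebraMap K0 (AlgebraicClosure K0) h) hn0
  have hh : h ≠ 0 := by
    intro h0
    refine hg.irr r₀ hr₀ 1 (by omega) (by omega) ?_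
    rw [h0, map_zero] at hr₀
    rw [pow_eq_zero_iff hn0.ne' |>.1 hr₀, pow_one]
    exact zero_mem _
  let K1 : IntermediateField K0 (AlgebraicClosure K0) := IntermediateField.adjoin K0 {r₀}
  have hfd : FiniteDimensional K0 K1 := by
    refine IntermediateField.adjoin.finiteDimensional ?_
    exact (Algebra.IsAlgebraic.isAlgebraic r₀).isIntegral
  let r : K1 := ⟨r₀, IntermediateField.mem_adjoin_simple_self K0 r₀⟩
  have hr : r ^ n = algebraMap K0 K1 h := Subtype.ext hr₀
  have hK1 : IntermediateField.adjoin K0 {r} = ⊤ := by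
    apply IntermediateField.map_injective K1.val
    rw [IntermediateField.adjoin_map, Set.image_singleton, ← AlgHom.fieldRange_eq_map,
      IntermediateField.fieldRange_val]
    rfl
  let i0 : Algebra K0 (UU k K1) := (jU k K0 K1).toAlgebra
  refine ⟨kbar k K1, UU k K1, inferInstance, inferInstance, inferInstance, inferInstance, i0,
    inferInstance, inferInstance, ?_, rU k r, geo hn0 h r hg hr hK1, ?_⟩
  · refine IsScalarTower.of_algebraMap_eq fun x => ?_
    apply Subtype.ext
    change algebraMap k (AlgebraicClosure K1) x =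
      algebraMap K1 (AlgebraicClosure K1) (algebraMap K0 K1 (algebraMap k K0 x))
    rw [← IsScalarTower.algebraMap_apply k K0 K1,
      ← IsScalarTower.algebraMap_apply k K1 (AlgebraicClosure K1)]
  · rintro c hc ⟨K, _, _, _, _, y, hy, ⟨s⟩⟩
    let Kc : IntermediateField K0 K := IntermediateField.adjoin K0 {y}
    let y' : Kc := ⟨y, IntermediateField.mem_adjoin_simple_self K0 y⟩
    have hstc : IsScalarTower k Kc K := IsScalarTower.of_algebraMap_eq fun x => rfl
    obtain ⟨s'⟩ := Pool.Agent.TW.push (k := k) (K₁ := Kc) s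
    have hy' : y' ^ n = algebraMap k Kc c * algebraMap K0 Kc h := Subtype.ext hy
    have hKc : IntermediateField.adjoin K0 {y'} = ⊤ := by
      apply IntermediateField.map_injective Kc.val
      rw [IntermediateField.adjoin_map, Set.image_singleton, ← AlgHom.fieldRange_eq_map,
        IntermediateField.fieldRange_val]
      rfl
    have hfc : FiniteDimensional K0 Kc := by
      refine IntermediateField.adjoin.finiteDimensional ?_
      refine IsIntegral.of_pow hn0 ?_
      rw [hy, IsScalarTower.algebraMap_apply k K0 K, ← map_mul]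
      exact isIntegral_algebraMap
    exact exists_act hn0 hh hr hK1 hc hy' hKc s'

end

end Pool.Agent.LN.TR
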