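import Pool.Agent.Helper37.LN.TRa

/-!
# Project LN, block TR
-/

set_option autoImplicit false

namespace Pool.Agent.LN

open Pool.Agent.LN.TR

/-- BLOCK TR. -/
theorem tr : StmtTR := by
  intro k K0 _ _ _ _ n h hn hg
  obtain ⟨E, U, i1, i2, i3, i4, i5, i6, i7, i8, r, hgeo, hact⟩ := tr1 k K0 n h hn hg
  refine ⟨E, U, i1, i2, i3, i4, i5, i6, i7, i8, r, hgeo, fun c hc hs => ?_⟩
  obtain ⟨Φ, hΦ⟩ := hact c hc hs
  exact ⟨Φ, ⟨hΦ.const, hΦ.fixK, hΦ.tw, hΦ.cont⟩⟩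

end Pool.Agent.LN
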